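import Pool.Agent.Q188.T8.Ineq

/-!
# The quartic inequality
-/

set_option autoImplicit false

namespace Pool.Agent.Q188.T8

/-- the polynomial in dimension eight -/
noncomputable def P4 (k0 k1 k2 k3 a01 a02 a03 a12 a13 a23 c01 c02 c03 c12 c13 c23 : ℝ) : ℝ :=
  k0 * k1 * k2 * k3 +
  1 / 2 * (k0 * k1 * (3 * a23 ^ 2 + 4 * c23 ^ 2) + k0 * k2 * (3 * a13 ^ 2 + 4 * c13 ^ 2) +
    k0 * k3 * (3 * a12 ^ 2 + 4 * c12 ^ 2) + k1 * k2 * (3 * a03 ^ 2 + 4 * c03 ^ 2) +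
    k1 * k3 * (3 * a02 ^ 2 + 4 * c02 ^ 2) + k2 * k3 * (3 * a01 ^ 2 + 4 * c01 ^ 2)) +
  (k0 * (3 * (a12 * a23 * a13) + 8 * (c12 * c23 * c13)) +
    k1 * (3 * (a02 * a23 * a03) + 8 * (c02 * c23 * c03)) +
    k2 * (3 * (a01 * a13 * a03) + 8 * (c01 * c13 * c03)) +
    k3 * (3 * (a01 * a12 * a02) + 8 * (c01 * c12 * c02))) +
  1 / 4 * ((3 * a01 ^ 2 + 4 * c01 ^ 2) * (3 * a23 ^ 2 + 4 * c23 ^ 2) +
    (3 * a02 ^ 2 + 4 * c02 ^ 2) * (3 * a13 ^ 2 + 4 * c13 ^ 2) +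
    (3 * a03 ^ 2 + 4 * c03 ^ 2) * (3 * a12 ^ 2 + 4 * c12 ^ 2)) +
  ((3 * (a01 * a12 * a23 * a03) + 16 * (c01 * c12 * c23 * c03)) +
    (3 * (a01 * a13 * a23 * a02) + 16 * (c01 * c13 * c23 * c02)) +
    (3 * (a02 * a12 * a13 * a03) + 16 * (c02 * c12 * c13 * c03)))

/-- the polynomial in dimension six -/
noncomputable def P3 (k1 k2 k3 a12 a13 a23 c12 c13 c23 : ℝ) : ℝ :=
  k1 * k2 * k3 + 1 / 2 * (k1 * (3 * a23 ^ 2 + 4 * c23 ^ 2) + k2 * (3 * a13 ^ 2 + 4 * c13 ^ 2) +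
    k3 * (3 * a12 ^ 2 + 4 * c12 ^ 2)) + (3 * (a12 * a23 * a13) + 8 * (c12 * c23 * c13))

/-- the pair condition -/
def Pc (k l a c : ℝ) : Prop := 3 * |a| ≤ 2 * c + 2 * (Real.sqrt k * Real.sqrt l)

theorem P3_nonneg {k1 k2 k3 a12 a13 a23 c12 c13 c23 : ℝ} (h1 : 0 ≤ k1) (h2 : 0 ≤ k2) (h3 : 0 ≤ k3)
    (k12 : 0 ≤ c12) (k13 : 0 ≤ c13) (k23 : 0 ≤ c23) (b12 : Pc k1 k2 a12 c12)
    (b13 : Pc k1 k3 a13 c13) (b23 : Pc k2 k3 a23 c23) :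
    0 ≤ P3 k1 k2 k3 a12 a13 a23 c12 c13 c23 := by
  have h := Q116.HT.ineq_three (Real.sqrt_nonneg k1) (Real.sqrt_nonneg k2) (Real.sqrt_nonneg k3)
    k12 k13 k23 b12 b13 b23
  rw [Real.sq_sqrt h1, Real.sq_sqrt h2, Real.sq_sqrt h3] at h
  unfold P3
  linarith

/-- the strengthened form -/
theorem P3_strong {k1 k2 k3 a12 a13 a23 c12 c13 c23 : ℝ} (h1 : 0 ≤ k1) (h2 : 0 ≤ k2)
    (h3 : 0 ≤ k3) (k12 : 0 ≤ c12) (k13 : 0 ≤ c13) (k23 : 0 ≤ c23) (b12 : Pc k1 k2 a12 c12)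
    (b13 : Pc k1 k3 a13 c13) (b23 : Pc k2 k3 a23 c23) :
    0 ≤ 1 / 4 * (k1 * k2 * k3) + 1 / 4 * (k1 * (3 * a23 ^ 2 + 4 * c23 ^ 2) +
      k2 * (3 * a13 ^ 2 + 4 * c13 ^ 2) + k3 * (3 * a12 ^ 2 + 4 * c12 ^ 2)) +
      (3 * (a12 * a23 * a13) + 8 * (c12 * c23 * c13)) := by
  have h := cubic (Real.sqrt_nonneg k1) (Real.sqrt_nonneg k2) (Real.sqrt_nonneg k3)
    k12 k13 k23 b12 b13 b23
  rw [Real.sq_sqrt h1, Real.sq_sqrt h2, Real.sq_sqrt h3] at h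
  exact h

theorem pairings (p q r : ℝ) : 0 ≤ 9 / 4 * (p ^ 2 + q ^ 2 + r ^ 2) + 3 * (p * r + p * q + q * r) := by
  nlinarith [sq_nonneg (p + q + r), sq_nonneg p, sq_nonneg q, sq_nonneg r]

theorem P4_nonneg {k0 k1 k2 k3 a01 a02 a03 a12 a13 a23 c01 c02 c03 c12 c13 c23 : ℝ}
    (h0 : 0 ≤ k0) (h1 : 0 ≤ k1) (h2 : 0 ≤ k2) (h3 : 0 ≤ k3)
    (g01 : 0 ≤ c01) (g02 : 0 ≤ c02) (g03 : 0 ≤ c03) (g12 : 0 ≤ c12) (g13 : 0 ≤ c13) (g23 : 0 ≤ c23)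
    (b01 : Pc k0 k1 a01 c01) (b02 : Pc k0 k2 a02 c02) (b03 : Pc k0 k3 a03 c03)
    (b12 : Pc k1 k2 a12 c12) (b13 : Pc k1 k3 a13 c13) (b23 : Pc k2 k3 a23 c23) :
    0 ≤ P4 k0 k1 k2 k3 a01 a02 a03 a12 a13 a23 c01 c02 c03 c12 c13 c23 := by
  have t0 := mul_nonneg h0 (P3_strong h1 h2 h3 g12 g13 g23 b12 b13 b23)
  have t1 := mul_nonneg h1 (P3_strong h0 h2 h3 g02 g03 g23 b02 b03 b23)
  have t2 := mul_nonneg h2 (P3_strong h0 h1 h3 g01 g03 g13 b01 b03 b13)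
  have t3 := mul_nonneg h3 (P3_strong h0 h1 h2 g01 g02 g12 b01 b02 b12)
  have hp := pairings (a01 * a23) (a02 * a13) (a03 * a12)
  have hc : 0 ≤ 3 * (a01 ^ 2 * c23 ^ 2 + c01 ^ 2 * a23 ^ 2 + a02 ^ 2 * c13 ^ 2 +
      c02 ^ 2 * a13 ^ 2 + a03 ^ 2 * c12 ^ 2 + c03 ^ 2 * a12 ^ 2) +
      4 * (c01 ^ 2 * c23 ^ 2 + c02 ^ 2 * c13 ^ 2 + c03 ^ 2 * c12 ^ 2) +
      16 * (c01 * c12 * c23 * c03 + c01 * c13 * c23 * c02 + c02 * c12 * c13 * c03) := by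
    positivity
  have e : P4 k0 k1 k2 k3 a01 a02 a03 a12 a13 a23 c01 c02 c03 c12 c13 c23 =
      k0 * (1 / 4 * (k1 * k2 * k3) + 1 / 4 * (k1 * (3 * a23 ^ 2 + 4 * c23 ^ 2) +
        k2 * (3 * a13 ^ 2 + 4 * c13 ^ 2) + k3 * (3 * a12 ^ 2 + 4 * c12 ^ 2)) +
        (3 * (a12 * a23 * a13) + 8 * (c12 * c23 * c13))) +
      k1 * (1 / 4 * (k0 * k2 * k3) + 1 / 4 * (k0 * (3 * a23 ^ 2 + 4 * c23 ^ 2) +
        k2 * (3 * a03 ^ 2 + 4 * c03 ^ 2) + k3 * (3 * a02 ^ 2 + 4 * c02 ^ 2)) +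
        (3 * (a02 * a23 * a03) + 8 * (c02 * c23 * c03))) +
      k2 * (1 / 4 * (k0 * k1 * k3) + 1 / 4 * (k0 * (3 * a13 ^ 2 + 4 * c13 ^ 2) +
        k1 * (3 * a03 ^ 2 + 4 * c03 ^ 2) + k3 * (3 * a01 ^ 2 + 4 * c01 ^ 2)) +
        (3 * (a01 * a13 * a03) + 8 * (c01 * c13 * c03))) +
      k3 * (1 / 4 * (k0 * k1 * k2) + 1 / 4 * (k0 * (3 * a12 ^ 2 + 4 * c12 ^ 2) +
        k1 * (3 * a02 ^ 2 + 4 * c02 ^ 2) + k2 * (3 * a01 ^ 2 + 4 * c01 ^ 2)) +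
        (3 * (a01 * a12 * a02) + 8 * (c01 * c12 * c02))) +
      (9 / 4 * ((a01 * a23) ^ 2 + (a02 * a13) ^ 2 + (a03 * a12) ^ 2) +
        3 * (a01 * a23 * (a03 * a12) + a01 * a23 * (a02 * a13) + a02 * a13 * (a03 * a12))) +
      (3 * (a01 ^ 2 * c23 ^ 2 + c01 ^ 2 * a23 ^ 2 + a02 ^ 2 * c13 ^ 2 +
      c02 ^ 2 * a13 ^ 2 + a03 ^ 2 * c12 ^ 2 + c03 ^ 2 * a12 ^ 2) +
      4 * (c01 ^ 2 * c23 ^ 2 + c02 ^ 2 * c13 ^ 2 + c03 ^ 2 * c12 ^ 2) +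
      16 * (c01 * c12 * c23 * c03 + c01 * c13 * c23 * c02 + c02 * c12 * c13 * c03)) := by
    unfold P4
    ring
  rw [e]
  linarith

/-- the shift by a tensor of constant curvature -/
theorem P4_shift {k0 k1 k2 k3 a01 a02 a03 a12 a13 a23 c01 c02 c03 c12 c13 c23 d : ℝ} (hd : 0 ≤ d)
    (h0 : 0 ≤ k0) (h1 : 0 ≤ k1) (h2 : 0 ≤ k2) (h3 : 0 ≤ k3)
    (g01 : 0 ≤ c01) (g02 : 0 ≤ c02) (g03 : 0 ≤ c03) (g12 : 0 ≤ c12) (g13 : 0 ≤ c13) (g23 : 0 ≤ c23)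
    (b01 : Pc k0 k1 a01 c01) (b02 : Pc k0 k2 a02 c02) (b03 : Pc k0 k3 a03 c03)
    (b12 : Pc k1 k2 a12 c12) (b13 : Pc k1 k3 a13 c13) (b23 : Pc k2 k3 a23 c23) :
    105 * d ^ 4 ≤ P4 (k0 + d) (k1 + d) (k2 + d) (k3 + d) a01 a02 a03 a12 a13 a23
      (c01 + d) (c02 + d) (c03 + d) (c12 + d) (c13 + d) (c23 + d) := by
  have hP := P4_nonneg h0 h1 h2 h3 g01 g02 g03 g12 g13 g23 b01 b02 b03 b12 b13 b23
  have t0 := mul_nonneg hd (P3_nonneg h1 h2 h3 g12 g13 g23 b12 b13 b23)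
  have t1 := mul_nonneg hd (P3_nonneg h0 h2 h3 g02 g03 g23 b02 b03 b23)
  have t2 := mul_nonneg hd (P3_nonneg h0 h1 h3 g01 g03 g13 b01 b03 b13)
  have t3 := mul_nonneg hd (P3_nonneg h0 h1 h2 g01 g02 g12 b01 b02 b12)
  clear b01 b02 b03 b12 b13 b23
  -- the remaining terms
  have r1 : d ^ 4 ≤ (k0 + d) * (k1 + d) * (k2 + d) * (k3 + d) - k0 * k1 * k2 * k3 -
      d * (k1 * k2 * k3) - d * (k0 * k2 * k3) - d * (k0 * k1 * k3) - d * (k0 * k1 * k2) := by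
    have : (k0 + d) * (k1 + d) * (k2 + d) * (k3 + d) - k0 * k1 * k2 * k3 -
      d * (k1 * k2 * k3) - d * (k0 * k2 * k3) - d * (k0 * k1 * k3) - d * (k0 * k1 * k2) =
      d ^ 2 * (k0 * k1 + k0 * k2 + k0 * k3 + k1 * k2 + k1 * k3 + k2 * k3) +
        d ^ 3 * (k0 + k1 + k2 + k3) + d ^ 4 := by ring
    rw [this]
    have : 0 ≤ d ^ 2 * (k0 * k1 + k0 * k2 + k0 * k3 + k1 * k2 + k1 * k3 + k2 * k3) +
        d ^ 3 * (k0 + k1 + k2 + k3) := by positivity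
    linarith
  have r2 : ∀ k l a c : ℝ, 0 ≤ k → 0 ≤ l → 0 ≤ c → 4 * d ^ 4 ≤
      (k + d) * (l + d) * (3 * a ^ 2 + 4 * (c + d) ^ 2) - k * l * (3 * a ^ 2 + 4 * c ^ 2) -
        d * (k * (3 * a ^ 2 + 4 * c ^ 2)) - d * (l * (3 * a ^ 2 + 4 * c ^ 2)) := by
    intro k l a c hk hl hc
    have : (k + d) * (l + d) * (3 * a ^ 2 + 4 * (c + d) ^ 2) - k * l * (3 * a ^ 2 + 4 * c ^ 2) -
        d * (k * (3 * a ^ 2 + 4 * c ^ 2)) - d * (l * (3 * a ^ 2 + 4 * c ^ 2)) =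
        4 * d ^ 4 + (d ^ 2 * (3 * a ^ 2 + 4 * c ^ 2) + (k * l + d * (k + l)) * (8 * c * d +
          4 * d ^ 2) + d ^ 2 * (8 * c * d)) := by ring
    rw [this]
    have : 0 ≤ d ^ 2 * (3 * a ^ 2 + 4 * c ^ 2) + (k * l + d * (k + l)) * (8 * c * d +
          4 * d ^ 2) + d ^ 2 * (8 * c * d) := by positivity
    linarith
  have r3 : ∀ k A x y z : ℝ, 0 ≤ k → 0 ≤ x → 0 ≤ y → 0 ≤ z → 8 * d ^ 4 ≤
      (k + d) * (3 * A + 8 * ((x + d) * (y + d) * (z + d))) - k * (3 * A + 8 * (x * y * z)) -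
        d * (3 * A + 8 * (x * y * z)) := by
    intro k A x y z hk hx hy hz
    have : (k + d) * (3 * A + 8 * ((x + d) * (y + d) * (z + d))) - k * (3 * A + 8 * (x * y * z)) -
        d * (3 * A + 8 * (x * y * z)) = 8 * d ^ 4 + 8 * (k * (d * (x * y + x * z + y * z) +
          d ^ 2 * (x + y + z) + d ^ 3) + d ^ 2 * (x * y + x * z + y * z) + d ^ 3 * (x + y + z)) := by
      ring
    rw [this]
    have : 0 ≤ 8 * (k * (d * (x * y + x * z + y * z) +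
          d ^ 2 * (x + y + z) + d ^ 3) + d ^ 2 * (x * y + x * z + y * z) + d ^ 3 * (x + y + z)) := by
      positivity
    linarith
  have r4 : ∀ a b x y : ℝ, 0 ≤ x → 0 ≤ y → 16 * d ^ 4 ≤
      (3 * a ^ 2 + 4 * (x + d) ^ 2) * (3 * b ^ 2 + 4 * (y + d) ^ 2) -
        (3 * a ^ 2 + 4 * x ^ 2) * (3 * b ^ 2 + 4 * y ^ 2) := by
    intro a b x y hx hy
    have : (3 * a ^ 2 + 4 * (x + d) ^ 2) * (3 * b ^ 2 + 4 * (y + d) ^ 2) -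
        (3 * a ^ 2 + 4 * x ^ 2) * (3 * b ^ 2 + 4 * y ^ 2) = 16 * d ^ 4 +
        ((3 * a ^ 2 + 4 * x ^ 2) * (8 * y * d + 4 * d ^ 2) +
          (8 * x * d + 4 * d ^ 2) * (3 * b ^ 2 + 4 * y ^ 2) +
          (8 * x * d) * (8 * y * d + 4 * d ^ 2) + 4 * d ^ 2 * (8 * y * d)) := by ring
    rw [this]
    have : 0 ≤ (3 * a ^ 2 + 4 * x ^ 2) * (8 * y * d + 4 * d ^ 2) +
          (8 * x * d + 4 * d ^ 2) * (3 * b ^ 2 + 4 * y ^ 2) +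
          (8 * x * d) * (8 * y * d + 4 * d ^ 2) + 4 * d ^ 2 * (8 * y * d) := by positivity
    linarith
  have r5 : ∀ A x y z w : ℝ, 0 ≤ x → 0 ≤ y → 0 ≤ z → 0 ≤ w → 16 * d ^ 4 ≤
      (3 * A + 16 * ((x + d) * (y + d) * (z + d) * (w + d))) - (3 * A + 16 * (x * y * z * w)) := by
    intro A x y z w hx hy hz hw
    have : (3 * A + 16 * ((x + d) * (y + d) * (z + d) * (w + d))) -
        (3 * A + 16 * (x * y * z * w)) = 16 * d ^ 4 + 16 * (d * (x * y * z + x * y * w +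
          x * z * w + y * z * w) + d ^ 2 * (x * y + x * z + x * w + y * z + y * w + z * w) +
          d ^ 3 * (x + y + z + w)) := by ring
    rw [this]
    have : 0 ≤ 16 * (d * (x * y * z + x * y * w +
          x * z * w + y * z * w) + d ^ 2 * (x * y + x * z + x * w + y * z + y * w + z * w) +
          d ^ 3 * (x + y + z + w)) := by positivity
    linarith
  have q01 := r2 k0 k1 a23 c23 h0 h1 g23
  have q02 := r2 k0 k2 a13 c13 h0 h2 g13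
  have q03 := r2 k0 k3 a12 c12 h0 h3 g12
  have q12 := r2 k1 k2 a03 c03 h1 h2 g03
  have q13 := r2 k1 k3 a02 c02 h1 h3 g02
  have q23 := r2 k2 k3 a01 c01 h2 h3 g01
  have s0 := r3 k0 (a12 * a23 * a13) c12 c23 c13 h0 g12 g23 g13
  have s1 := r3 k1 (a02 * a23 * a03) c02 c23 c03 h1 g02 g23 g03
  have s2 := r3 k2 (a01 * a13 * a03) c01 c13 c03 h2 g01 g13 g03
  have s3 := r3 k3 (a01 * a12 * a02) c01 c12 c02 h3 g01 g12 g02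
  have u1 := r4 a01 a23 c01 c23 g01 g23
  have u2 := r4 a02 a13 c02 c13 g02 g13
  have u3 := r4 a03 a12 c03 c12 g03 g12
  have v1 := r5 (a01 * a12 * a23 * a03) c01 c12 c23 c03 g01 g12 g23 g03
  have v2 := r5 (a01 * a13 * a23 * a02) c01 c13 c23 c02 g01 g13 g23 g02
  have v3 := r5 (a02 * a12 * a13 * a03) c02 c12 c13 c03 g02 g12 g13 g03
  clear r2 r3 r4 r5
  unfold P4 at hP ⊢
  unfold P3 at t0 t1 t2 t3
  linarith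

end Pool.Agent.Q188.T8
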