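import Pool.Agent.Q188.T8.Wick
import Pool.Agent.Q188.T8.Quart

/-!
# The integrand of torus invariant tensors in dimension eight
-/

set_option autoImplicit false

namespace Pool.Agent.Q188.T8

open Finset Pool.Agent.Y195.HF Pool.Agent.W669.HD Pool.Agent.W666.GB MvPolynomial Q116.HT

theorem gE_four {B κ : Fin 4 → Fin 4 → ℝ} (hB : ∀ p q, B p q = B q p)
    (hκ : ∀ p q, κ p q = κ q p) : gE (kn B κ) (sqp 4) =
      (3 * B 0 0 + κ 0 0) * (3 * B 1 1 + κ 1 1) * (3 * B 2 2 + κ 2 2) * (3 * B 3 3 + κ 3 3) +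
      2 * ((3 * B 0 0 + κ 0 0) * (3 * B 1 1 + κ 1 1) * (3 * B 2 3 ^ 2 + κ 2 3 ^ 2) +
        (3 * B 0 0 + κ 0 0) * (3 * B 2 2 + κ 2 2) * (3 * B 1 3 ^ 2 + κ 1 3 ^ 2) +
        (3 * B 0 0 + κ 0 0) * (3 * B 3 3 + κ 3 3) * (3 * B 1 2 ^ 2 + κ 1 2 ^ 2) +
        (3 * B 1 1 + κ 1 1) * (3 * B 2 2 + κ 2 2) * (3 * B 0 3 ^ 2 + κ 0 3 ^ 2) +
        (3 * B 1 1 + κ 1 1) * (3 * B 3 3 + κ 3 3) * (3 * B 0 2 ^ 2 + κ 0 2 ^ 2) +
        (3 * B 2 2 + κ 2 2) * (3 * B 3 3 + κ 3 3) * (3 * B 0 1 ^ 2 + κ 0 1 ^ 2)) +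
      8 * ((3 * B 0 0 + κ 0 0) * (3 * (B 1 2 * B 2 3 * B 1 3) + κ 1 2 * κ 2 3 * κ 1 3) +
        (3 * B 1 1 + κ 1 1) * (3 * (B 0 2 * B 2 3 * B 0 3) + κ 0 2 * κ 2 3 * κ 0 3) +
        (3 * B 2 2 + κ 2 2) * (3 * (B 0 1 * B 1 3 * B 0 3) + κ 0 1 * κ 1 3 * κ 0 3) +
        (3 * B 3 3 + κ 3 3) * (3 * (B 0 1 * B 1 2 * B 0 2) + κ 0 1 * κ 1 2 * κ 0 2)) +
      4 * ((3 * B 0 1 ^ 2 + κ 0 1 ^ 2) * (3 * B 2 3 ^ 2 + κ 2 3 ^ 2) +
        (3 * B 0 2 ^ 2 + κ 0 2 ^ 2) * (3 * B 1 3 ^ 2 + κ 1 3 ^ 2) +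
        (3 * B 0 3 ^ 2 + κ 0 3 ^ 2) * (3 * B 1 2 ^ 2 + κ 1 2 ^ 2)) +
      16 * ((3 * (B 0 1 * B 1 2 * B 2 3 * B 0 3) + κ 0 1 * κ 1 2 * κ 2 3 * κ 0 3) +
        (3 * (B 0 1 * B 1 3 * B 2 3 * B 0 2) + κ 0 1 * κ 1 3 * κ 2 3 * κ 0 2) +
        (3 * (B 0 2 * B 1 2 * B 1 3 * B 0 3) + κ 0 2 * κ 1 2 * κ 1 3 * κ 0 3)) := by
  have hs := kn_sym hB hκ
  have hE : IsG (kn B κ) (gE (kn B κ)) := gE_isG hs
  have h1 : sqp 4 = ∑ μ : Sp, ∑ ν : Sp, ∑ ρ : Sp, ∑ τ : Sp,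
      (X (μ, (0 : Fin 4)) ^ 2 * X (ν, (1 : Fin 4)) ^ 2 * X (ρ, (2 : Fin 4)) ^ 2 *
        X (τ, (3 : Fin 4)) ^ 2 : MvPolynomial (Sp × Fin 4) ℝ) := by
    rw [sqp, Fin.prod_univ_four, Finset.sum_mul_sum, Finset.sum_mul, Finset.sum_mul]
    refine Finset.sum_congr rfl fun μ _ => ?_
    rw [Finset.sum_mul, Finset.sum_mul]
    refine Finset.sum_congr rfl fun ν _ => ?_
    rw [Finset.mul_sum]
    conv_rhs => rw [Finset.sum_comm]
    refine Finset.sum_congr rfl fun τ _ => ?_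
    rw [Finset.mul_sum, Finset.sum_mul]
  rw [h1]
  simp only [map_sum, wick2222 hE hs]
  have e1 : ((0 : Fin 3) = 1) = False := by simp
  have e2 : ((0 : Fin 3) = 2) = False := by simp
  have e3 : ((1 : Fin 3) = 0) = False := by simp
  have e4 : ((1 : Fin 3) = 2) = False := by simp
  have e5 : ((2 : Fin 3) = 0) = False := by simp
  have e6 : ((2 : Fin 3) = 1) = False := by simp
  simp only [Fintype.sum_option, Fin.sum_univ_three, kn, e1, e2, e3, e4, e5, e6, if_true, if_false]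
  ring

theorem gm_four {T : T4 4} (hT : TorInv T) :
    gm (fun _ : Fin 4 => T) = 6144 * P4 (pA T 0 0) (pA T 1 1) (pA T 2 2) (pA T 3 3)
      (pA T 0 1) (pA T 0 2) (pA T 0 3) (pA T 1 2) (pA T 1 3) (pA T 2 3)
      (pc T 0 1) (pc T 0 2) (pc T 0 3) (pc T 1 2) (pc T 1 3) (pc T 2 3) := by
  have hAsym : ∀ p q, pA T p q = pA T q p := by
    intro p q
    exact hT.pair _ _ _ _
  have hcsym : ∀ p q, pc T p q = pc T q p := by
    intro p q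
    simp only [pc]
    by_cases hpq : p = q
    · subst hpq; rfl
    · rw [if_neg hpq, if_neg (Ne.symm hpq), hT.a12 (q, false) (p, false), hT.a34]
      ring
  set B : Fin 4 → Fin 4 → ℝ := fun p q => if p = q then 2 / 3 * pA T p p else pA T p q with hB
  set κ : Fin 4 → Fin 4 → ℝ := fun p q => 2 * pc T p q with hκ
  have hBs : ∀ p q, B p q = B q p := by
    intro p q
    by_cases hpq : p = q
    · subst hpq; rfl
    · simp only [hB, if_neg hpq, if_neg (Ne.symm hpq), hAsym p q]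
  have hκs : ∀ p q, κ p q = κ q p := by
    intro p q
    simp only [hκ, hcsym p q]
  have e1 := eL_form (A := pA T) (c := pc T) (d := pd T) (B := B) (κ := κ) hBs
    (fun p q hpq => by simp only [hB, if_neg hpq]) (fun p q _ => rfl)
    (fun p q hpq => hT.two_d hpq) (fun p => by simp [pc]) (fun p => by simp [pd])
    (fun p => by simp only [hB, hκ, pc, if_true]; ring)
  rw [← hT.nf_eq] at e1
  rw [gm_LR, e1, top_pow rules (LR 4) LR_top, gE_four hBs hκs]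
  have f1 : ((0 : Fin 4) = 1) = False := by simp
  have f2 : ((0 : Fin 4) = 2) = False := by simp
  have f3 : ((0 : Fin 4) = 3) = False := by simp
  have f4 : ((1 : Fin 4) = 2) = False := by simp
  have f5 : ((1 : Fin 4) = 3) = False := by simp
  have f6 : ((2 : Fin 4) = 3) = False := by simp
  have f7 : ∀ p, pc T p p = 0 := by
    intro p; simp [pc]
  simp only [hB, hκ, f1, f2, f3, f4, f5, f6, f7, if_true, if_false]
  have : ((Nat.factorial 4 : ℕ) : ℝ) = 24 := by norm_num [Nat.factorial]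
  rw [this]
  unfold P4
  ring

end Pool.Agent.Q188.T8
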