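import Pool.Agent.Q116.HT.M3

/-!
# The polynomial inequality in dimension eight
-/

set_option autoImplicit false

namespace Pool.Agent.Q188.T8

theorem sq3 (X Y Z : ℝ) : X * Y + X * Z + Y * Z ≤ X ^ 2 + Y ^ 2 + Z ^ 2 := by
  nlinarith [sq_nonneg (X - Y), sq_nonneg (X - Z), sq_nonneg (Y - Z)]

theorem lin3 (ρ α β γ : ℝ) : 8 / 27 * (ρ * (α + β + γ)) ≤
    1 / 4 * ρ ^ 2 + 11 / 27 * (α ^ 2 + β ^ 2 + γ ^ 2) := by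
  have h := sq3 α β γ
  have h2 : 8 / 27 * (ρ * (α + β + γ)) ≤ 1 / 4 * ρ ^ 2 + 64 / 729 * (α + β + γ) ^ 2 := by
    nlinarith [sq_nonneg (1 / 2 * ρ - 8 / 27 * (α + β + γ))]
  have h3 : (α + β + γ) ^ 2 ≤ 3 * (α ^ 2 + β ^ 2 + γ ^ 2) := by nlinarith
  nlinarith [sq_nonneg α, sq_nonneg β, sq_nonneg γ]

theorem third {x y z u v w : ℝ} (hxy : 0 ≤ x * y) (h : z ≤ 2 / 3 * (u + v * w)) :
    3 * (x * y * z) ≤ 2 * u * (x * y) + 2 * (w * x * (v * y)) := by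
  have := mul_le_mul_of_nonneg_left h hxy
  nlinarith

/-- the cubic inequality, with smaller coefficients than in dimension six -/
theorem cubic {r1 r2 r3 a12 a13 a23 c12 c13 c23 : ℝ} (h1 : 0 ≤ r1) (h2 : 0 ≤ r2) (h3 : 0 ≤ r3)
    (k12 : 0 ≤ c12) (k13 : 0 ≤ c13) (k23 : 0 ≤ c23)
    (b12 : 3 * |a12| ≤ 2 * c12 + 2 * (r1 * r2)) (b13 : 3 * |a13| ≤ 2 * c13 + 2 * (r1 * r3))
    (b23 : 3 * |a23| ≤ 2 * c23 + 2 * (r2 * r3)) :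
    0 ≤ 1 / 4 * (r1 ^ 2 * r2 ^ 2 * r3 ^ 2) + 1 / 4 * (r1 ^ 2 * (3 * a23 ^ 2 + 4 * c23 ^ 2) +
      r2 ^ 2 * (3 * a13 ^ 2 + 4 * c13 ^ 2) + r3 ^ 2 * (3 * a12 ^ 2 + 4 * c12 ^ 2)) +
      (3 * (a12 * a23 * a13) + 8 * (c12 * c23 * c13)) := by
  set x := |a12| with hx
  set y := |a13| with hy
  set z := |a23| with hz
  have hx0 : 0 ≤ x := abs_nonneg _
  have hy0 : 0 ≤ y := abs_nonneg _
  have hz0 : 0 ≤ z := abs_nonneg _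
  have ex : a12 ^ 2 = x ^ 2 := (sq_abs _).symm
  have ey : a13 ^ 2 = y ^ 2 := (sq_abs _).symm
  have ez : a23 ^ 2 = z ^ 2 := (sq_abs _).symm
  have hp : -(x * z * y) ≤ a12 * a23 * a13 := by
    have : x * z * y = |a12 * a23 * a13| := by rw [abs_mul, abs_mul]
    rw [this]
    exact neg_abs_le _
  rw [ex, ey, ez]
  have p12 : 0 ≤ r1 * r2 := mul_nonneg h1 h2
  have p13 : 0 ≤ r1 * r3 := mul_nonneg h1 h3
  have p23 : 0 ≤ r2 * r3 := mul_nonneg h2 h3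
  have u12 : x ≤ 2 / 3 * (c12 + r1 * r2) := by linarith
  have u13 : y ≤ 2 / 3 * (c13 + r1 * r3) := by linarith
  have u23 : z ≤ 2 / 3 * (c23 + r2 * r3) := by linarith
  have s1 : 3 * (x * y * z) ≤ 2 * c23 * (x * y) + 2 * (r3 * x * (r2 * y)) :=
    third (mul_nonneg hx0 hy0) u23
  have s2 : 3 * (x * z * y) ≤ 2 * c13 * (x * z) + 2 * (r3 * x * (r1 * z)) :=
    third (mul_nonneg hx0 hz0) u13
  have s3 : 3 * (y * z * x) ≤ 2 * c12 * (y * z) + 2 * (r2 * y * (r1 * z)) :=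
    third (mul_nonneg hy0 hz0) u12
  have v1 : x * y ≤ 4 / 9 * ((c12 + r1 * r2) * (c13 + r1 * r3)) := by
    have := mul_le_mul u12 u13 hy0 (by positivity)
    linarith
  have v2 : x * z ≤ 4 / 9 * ((c12 + r1 * r2) * (c23 + r2 * r3)) := by
    have := mul_le_mul u12 u23 hz0 (by positivity)
    linarith
  have v3 : y * z ≤ 4 / 9 * ((c13 + r1 * r3) * (c23 + r2 * r3)) := by
    have := mul_le_mul u13 u23 hz0 (by positivity)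
    linarith
  have w1 := mul_le_mul_of_nonneg_left v1 k23
  have w2 := mul_le_mul_of_nonneg_left v2 k13
  have w3 := mul_le_mul_of_nonneg_left v3 k12
  -- abbreviations
  obtain ⟨X, hX⟩ : ∃ X, X = r3 * x := ⟨_, rfl⟩
  obtain ⟨Y, hY⟩ : ∃ Y, Y = r2 * y := ⟨_, rfl⟩
  obtain ⟨Z, hZ⟩ : ∃ Z, Z = r1 * z := ⟨_, rfl⟩
  obtain ⟨α, hα⟩ : ∃ α, α = r3 * c12 := ⟨_, rfl⟩
  obtain ⟨β, hβ⟩ : ∃ β, β = r2 * c13 := ⟨_, rfl⟩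
  obtain ⟨γ, hγ⟩ : ∃ γ, γ = r1 * c23 := ⟨_, rfl⟩
  obtain ⟨ρ, hρ⟩ : ∃ ρ, ρ = r1 * r2 * r3 := ⟨_, rfl⟩
  obtain ⟨T, hT⟩ : ∃ T, T = c12 * c13 * c23 := ⟨_, rfl⟩
  have hT0 : 0 ≤ T := by rw [hT]; positivity
  have f1 : c23 * (4 / 9 * ((c12 + r1 * r2) * (c13 + r1 * r3))) =
      4 / 9 * (T + α * γ + β * γ + γ * ρ) := by rw [hT, hα, hβ, hγ, hρ]; ring
  have f2 : c13 * (4 / 9 * ((c12 + r1 * r2) * (c23 + r2 * r3))) =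
      4 / 9 * (T + α * β + β * γ + β * ρ) := by rw [hT, hα, hβ, hγ, hρ]; ring
  have f3 : c12 * (4 / 9 * ((c13 + r1 * r3) * (c23 + r2 * r3))) =
      4 / 9 * (T + α * β + α * γ + α * ρ) := by rw [hT, hα, hβ, hγ, hρ]; ring
  rw [f1] at w1
  rw [f2] at w2
  rw [f3] at w3
  rw [← hX, ← hY] at s1
  rw [← hX, ← hZ] at s2
  rw [← hY, ← hZ] at s3
  have e1 : 1 / 4 * (r1 ^ 2 * r2 ^ 2 * r3 ^ 2) + 1 / 4 * (r1 ^ 2 * (3 * z ^ 2 + 4 * c23 ^ 2) +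
      r2 ^ 2 * (3 * y ^ 2 + 4 * c13 ^ 2) + r3 ^ 2 * (3 * x ^ 2 + 4 * c12 ^ 2)) +
      (3 * (a12 * a23 * a13) + 8 * (c12 * c23 * c13)) =
      1 / 4 * ρ ^ 2 + 3 / 4 * (X ^ 2 + Y ^ 2 + Z ^ 2) + (α ^ 2 + β ^ 2 + γ ^ 2) +
        3 * (a12 * a23 * a13) + 8 * T := by
    rw [hT, hα, hβ, hγ, hρ, hX, hY, hZ]; ring
  rw [e1]
  have g1 : 3 * (x * y * z) ≤ 2 / 3 * (4 / 9 * (3 * T + 2 * (α * β + α * γ + β * γ) +
      ρ * (α + β + γ))) + 2 / 3 * (X * Y + X * Z + Y * Z) := by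
    linarith
  have g2 := sq3 X Y Z
  have g3 := sq3 α β γ
  have g4 := lin3 ρ α β γ
  have g5 : 0 ≤ X ^ 2 + Y ^ 2 + Z ^ 2 := by positivity
  linarith

end Pool.Agent.Q188.T8
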