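import Pool.Agent.Q188.T8.Gm
import Pool.Agent.Q188.EinN.Pt
import Pool.Agent.Q116.HT.Cl

/-!
# Torus invariant tensors with a bound of the sectional curvature on sums of two planes
-/

set_option autoImplicit false

namespace Pool.Agent.Q188.T8

open Finset Pool.Agent.Y195.HF Pool.Agent.W669.HD Pool.Agent.W666.GB Q116.HT

variable {m : ℕ} {V : Type} [NormedAddCommGroup V] [InnerProductSpace ℝ V]

/-- the sum of the planes `p` and `q` -/
def two (e : OrthonormalBasis (Fin m × Bool) ℝ V) (p q : Fin m) : Submodule ℝ V :=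
  Submodule.span ℝ {e (p, false), e (p, true), e (q, false), e (q, true)}

theorem two1 (e : OrthonormalBasis (Fin m × Bool) ℝ V) (p q : Fin m) (s : Bool) :
    e (p, s) ∈ two e p q := by
  apply Submodule.subset_span
  cases s <;> simp

theorem two2 (e : OrthonormalBasis (Fin m × Bool) ℝ V) (p q : Fin m) (s : Bool) :
    e (q, s) ∈ two e p q := by
  apply Submodule.subset_span
  cases s <;> simp

/-- the sectional curvatures on the sums of two planes are at most `-δ` -/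
def PLe (e : OrthonormalBasis (Fin m × Bool) ℝ V) (R : V → V → V → V → ℝ) (δ : ℝ) : Prop :=
  ∀ p q : Fin m, ∀ x ∈ two e p q, ∀ y ∈ two e p q, R x y x y ≤ -(δ * unitT x y x y)

theorem p_diag (e : OrthonormalBasis (Fin m × Bool) ℝ V) {R : V → V → V → V → ℝ} {δ : ℝ}
    (hs : PLe e R δ) (p : Fin m) : 0 ≤ pA (cp e (negT R)) p p - δ := by
  have h := hs p p (e (p, false)) (two1 e p p _) (e (p, true)) (two1 e p p _)
  simp only [unitT, inner_ee, Prod.mk.injEq, true_and, if_true, if_false, Bool.false_eq_true,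
    Bool.true_eq_false] at h
  simp only [pA, cp, negT]
  linarith

theorem p_off (e : OrthonormalBasis (Fin m × Bool) ℝ V) {R : V → V → V → V → ℝ} {δ : ℝ}
    (hs : PLe e R δ) {p q : Fin m} (hpq : p ≠ q) : 0 ≤ pc (cp e (negT R)) p q - δ := by
  have h := hs p q (e (p, false)) (two1 e p q _) (e (q, false)) (two2 e p q _)
  simp only [unitT, inner_ee, Prod.mk.injEq, hpq, hpq.symm, false_and, if_true,
    if_false] at h
  simp only [pc, if_neg hpq, cp, negT]
  linarith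

theorem p_pair (e : OrthonormalBasis (Fin m × Bool) ℝ V) {R : V → V → V → V → ℝ} {δ : ℝ}
    (hR : AlgCurv R) (hI : TurnInv e R) (hs : PLe e R δ) {p q : Fin m} (hpq : p ≠ q) :
    Pc (pA (cp e (negT R)) p p - δ) (pA (cp e (negT R)) q q - δ) (pA (cp e (negT R)) p q)
      (pc (cp e (negT R)) p q - δ) := by
  have hk := p_diag e hs p
  have hl := p_diag e hs q
  have hc := p_off e hs hpq
  set T := cp e (negT R) with hT
  set k := pA T p p - δ with hkd
  set l := pA T q q - δ with hld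
  set c := pc T p q - δ with hcd
  have key : ∀ s : ℝ, s ^ 2 = 1 → -(2 * c + 3 * s * pA T p q) ≤ 2 * (Real.sqrt k * Real.sqrt l) := by
    intro s hs1
    set u := 2 * c + 3 * s * pA T p q with hu
    have h1 : ∀ A : ℝ, 0 ≤ A → 0 ≤ k * (A * A) + u * A + l := by
      intro A hA
      set a := Real.sqrt A with ha
      have ha2 : a ^ 2 = A := Real.sq_sqrt hA
      have h2 := hs p q (a • e (p, false) + (1 : ℝ) • e (q, false))
        (Submodule.add_mem _ (Submodule.smul_mem _ _ (two1 e p q _))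
          (Submodule.smul_mem _ _ (two2 e p q _)))
        (a • e (p, true) + s • e (q, true))
        (Submodule.add_mem _ (Submodule.smul_mem _ _ (two1 e p q _))
          (Submodule.smul_mem _ _ (two2 e p q _)))
      rw [sec_form e hR hI hpq, unit_form e hpq, ← hT, ha2, hs1] at h2
      have e1 : a * 1 * a * s = A * s := by rw [← ha2]; ring
      rw [e1] at h2
      have e2 : k * (A * A) + u * A + l = A * A * pA T p p + pA T q q +
          (A + A) * pc T p q + 3 * (A * s) * pA T p q - δ * ((A + 1) * (A + 1)) := by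
        rw [hu, hkd, hld, hcd]; ring
      rw [e2]
      nlinarith [h2]
    by_cases hu0 : 0 ≤ u
    · have : 0 ≤ Real.sqrt k * Real.sqrt l := by positivity
      linarith
    · push Not at hu0
      have h3 : ∀ A : ℝ, 0 ≤ k * (A * A) + u * A + l := by
        intro A
        rcases le_or_gt 0 A with hA | hA
        · exact h1 A hA
        · have : 0 ≤ k * (A * A) := mul_nonneg hk (mul_self_nonneg _)
          have : 0 ≤ u * A := (mul_pos_of_neg_of_neg hu0 hA).le
          linarith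
      have h4 := discrim_le_zero h3
      rw [discrim] at h4
      have h5 : (-u) ^ 2 ≤ (2 * (Real.sqrt k * Real.sqrt l)) ^ 2 := by
        have e3 : (2 * (Real.sqrt k * Real.sqrt l)) ^ 2 = 4 * k * l := by
          rw [mul_pow, mul_pow, Real.sq_sqrt hk, Real.sq_sqrt hl]; ring
        rw [e3]
        linarith
      exact le_of_sq_le_sq h5 (by positivity)
  have k1 := key 1 (by norm_num)
  have k2 := key (-1) (by norm_num)
  have : |pA T p q| ≤ (2 * c + 2 * (Real.sqrt k * Real.sqrt l)) / 3 := by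
    rw [abs_le]
    constructor <;> linarith
  unfold Pc
  linarith

/-- Dimension eight. -/
theorem eight_bound (e : OrthonormalBasis (Fin 4 × Bool) ℝ V) {R : V → V → V → V → ℝ}
    (hR : AlgCurv R) {δ : ℝ} (hδ : 0 ≤ δ) (hI : TurnInv e R) (hs : PLe e R δ) :
    roundGB 4 δ ≤ (-1) ^ 4 * gbc e R := by
  rw [gbc_eq]
  have hπ := Real.pi_pos
  have hc : 0 < 1 / ((8 * Real.pi) ^ 4 * ((4 : ℕ).factorial : ℝ)) := by positivity
  have hr : roundGB 4 δ = 1 / ((8 * Real.pi) ^ 4 * (4 : ℕ).factorial) *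
      (2 ^ 4 * (δ ^ 4 * (2 * 4).factorial)) := by
    unfold roundGB
    have : (8 * Real.pi) ^ 4 = 2 ^ 4 * (4 * Real.pi) ^ 4 := by
      rw [← mul_pow]; congr 1; ring
    rw [this]
    field_simp
  rw [hr]
  refine mul_le_mul_of_nonneg_left ?_ hc.le
  rw [gm_four (torInv_cp e hR hI)]
  have n01 : (0 : Fin 4) ≠ 1 := by simp
  have n02 : (0 : Fin 4) ≠ 2 := by simp
  have n03 : (0 : Fin 4) ≠ 3 := by simp
  have n12 : (1 : Fin 4) ≠ 2 := by simp
  have n13 : (1 : Fin 4) ≠ 3 := by simp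
  have n23 : (2 : Fin 4) ≠ 3 := by simp
  have h := P4_shift hδ (p_diag e hs 0) (p_diag e hs 1) (p_diag e hs 2) (p_diag e hs 3)
    (p_off e hs n01) (p_off e hs n02) (p_off e hs n03) (p_off e hs n12) (p_off e hs n13)
    (p_off e hs n23) (p_pair e hR hI hs n01) (p_pair e hR hI hs n02) (p_pair e hR hI hs n03)
    (p_pair e hR hI hs n12) (p_pair e hR hI hs n13) (p_pair e hR hI hs n23)
  simp only [sub_add_cancel] at h
  have hf : ((2 * 4).factorial : ℝ) = 40320 := by norm_num [Nat.factorial]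
  rw [hf]
  linarith

theorem P3_shift {k1 k2 k3 a12 a13 a23 c12 c13 c23 d : ℝ} (hd : 0 ≤ d) (h1 : 0 ≤ k1) (h2 : 0 ≤ k2)
    (h3 : 0 ≤ k3) (k12 : 0 ≤ c12) (k13 : 0 ≤ c13) (k23 : 0 ≤ c23) (b12 : Pc k1 k2 a12 c12)
    (b13 : Pc k1 k3 a13 c13) (b23 : Pc k2 k3 a23 c23) :
    15 * d ^ 3 ≤ P3 (k1 + d) (k2 + d) (k3 + d) a12 a13 a23 (c12 + d) (c13 + d) (c23 + d) := by
  have hP := P3_nonneg h1 h2 h3 k12 k13 k23 b12 b13 b23
  have e : P3 (k1 + d) (k2 + d) (k3 + d) a12 a13 a23 (c12 + d) (c13 + d) (c23 + d) =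
      P3 k1 k2 k3 a12 a13 a23 c12 c13 c23 + 15 * d ^ 3 +
      (d * (k1 * k2 + k1 * k3 + k2 * k3) + d ^ 2 * (k1 + k2 + k3) +
      1 / 2 * (k1 * (8 * c23 * d + 4 * d ^ 2) + k2 * (8 * c13 * d + 4 * d ^ 2) +
        k3 * (8 * c12 * d + 4 * d ^ 2)) +
      1 / 2 * d * ((3 * a23 ^ 2 + 4 * c23 ^ 2 + 8 * c23 * d) +
        (3 * a13 ^ 2 + 4 * c13 ^ 2 + 8 * c13 * d) + (3 * a12 ^ 2 + 4 * c12 ^ 2 + 8 * c12 * d)) +
      8 * (d * (c12 * c13 + c12 * c23 + c13 * c23) + d ^ 2 * (c12 + c13 + c23))) := by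
    unfold P3
    ring
  rw [e]
  have : 0 ≤ d * (k1 * k2 + k1 * k3 + k2 * k3) + d ^ 2 * (k1 + k2 + k3) +
      1 / 2 * (k1 * (8 * c23 * d + 4 * d ^ 2) + k2 * (8 * c13 * d + 4 * d ^ 2) +
        k3 * (8 * c12 * d + 4 * d ^ 2)) +
      1 / 2 * d * ((3 * a23 ^ 2 + 4 * c23 ^ 2 + 8 * c23 * d) +
        (3 * a13 ^ 2 + 4 * c13 ^ 2 + 8 * c13 * d) + (3 * a12 ^ 2 + 4 * c12 ^ 2 + 8 * c12 * d)) +
      8 * (d * (c12 * c13 + c12 * c23 + c13 * c23) + d ^ 2 * (c12 + c13 + c23)) := by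
    positivity
  linarith

/-- Dimension six. -/
theorem six_bound'' (e : OrthonormalBasis (Fin 3 × Bool) ℝ V) {R : V → V → V → V → ℝ}
    (hR : AlgCurv R) {δ : ℝ} (hδ : 0 ≤ δ) (hI : TurnInv e R) (hs : PLe e R δ) :
    roundGB 3 δ ≤ (-1) ^ 3 * gbc e R := by
  rw [gbc_eq]
  have hπ := Real.pi_pos
  have hc : 0 < 1 / ((8 * Real.pi) ^ 3 * ((3 : ℕ).factorial : ℝ)) := by positivity
  have hr : roundGB 3 δ = 1 / ((8 * Real.pi) ^ 3 * (3 : ℕ).factorial) *
      (2 ^ 3 * (δ ^ 3 * (2 * 3).factorial)) := by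
    unfold roundGB
    have : (8 * Real.pi) ^ 3 = 2 ^ 3 * (4 * Real.pi) ^ 3 := by
      rw [← mul_pow]; congr 1; ring
    rw [this]
    field_simp
  rw [hr]
  refine mul_le_mul_of_nonneg_left ?_ hc.le
  rw [gm_three (torInv_cp e hR hI)]
  have n01 : (0 : Fin 3) ≠ 1 := by simp
  have n02 : (0 : Fin 3) ≠ 2 := by simp
  have n12 : (1 : Fin 3) ≠ 2 := by simp
  have h := P3_shift hδ (p_diag e hs 0) (p_diag e hs 1) (p_diag e hs 2)
    (p_off e hs n01) (p_off e hs n02) (p_off e hs n12) (p_pair e hR hI hs n01)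
    (p_pair e hR hI hs n02) (p_pair e hR hI hs n12)
  simp only [sub_add_cancel] at h
  unfold P3 at h
  have hf : ((2 * 3).factorial : ℝ) = 720 := by norm_num [Nat.factorial]
  rw [hf]
  linarith

end Pool.Agent.Q188.T8
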