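import Pool.Agent.Q116.HT.M3

/-!
# The Gaussian mean of a product of four squares
-/

set_option autoImplicit false

namespace Pool.Agent.Q188.T8

open Finset Pool.Agent.Y195.HF Pool.Agent.W669.HD Pool.Agent.W666.GB MvPolynomial Q116.HT

section wick

variable {ι : Type} [Fintype ι] [DecidableEq ι] {K : ι → ι → ℝ}
  {E : MvPolynomial ι ℝ →ₗ[ℝ] ℝ}

theorem wick2222 (hE : IsG K E) (hK : ∀ i j, K i j = K j i) (a b c d : ι) :
    E (X a ^ 2 * X b ^ 2 * X c ^ 2 * X d ^ 2) = K a a * K b b * K c c * K d d +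
      2 * (K a a * K b b * K c d ^ 2 + K a a * K c c * K b d ^ 2 + K a a * K d d * K b c ^ 2 +
        K b b * K c c * K a d ^ 2 + K b b * K d d * K a c ^ 2 + K c c * K d d * K a b ^ 2) +
      8 * (K a a * (K b c * K c d * K b d) + K b b * (K a c * K c d * K a d) +
        K c c * (K a b * K b d * K a d) + K d d * (K a b * K b c * K a c)) +
      4 * (K a b ^ 2 * K c d ^ 2 + K a c ^ 2 * K b d ^ 2 + K a d ^ 2 * K b c ^ 2) +
      16 * (K a b * K b c * K c d * K a d + K a b * K b d * K c d * K a c +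
        K a c * K b c * K b d * K a d) := by
  have h1 : ∀ f g : MvPolynomial ι ℝ, E (X a * (X a * f)) = K a a * E f + E (X a * dv K a f) := by
    intro f g
    rw [hE.dstep, Derivation.leibniz, dv_X, smul_eq_mul, smul_eq_mul, map_add, mul_comm f,
      hE.C_mul, add_comm]
  have h0 : (X a ^ 2 * X b ^ 2 * X c ^ 2 * X d ^ 2 : MvPolynomial ι ℝ) =
      X a * (X a * (X b ^ 2 * X c ^ 2 * X d ^ 2)) := by ring
  have h2 : dv K a (X b ^ 2 * X c ^ 2 * X d ^ 2) =
      C (2 * K a b) * (X b * X c ^ 2 * X d ^ 2) + C (2 * K a c) * (X b ^ 2 * X c * X d ^ 2) +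
        C (2 * K a d) * (X b ^ 2 * X c ^ 2 * X d) := by
    have e : (X b ^ 2 * X c ^ 2 * X d ^ 2 : MvPolynomial ι ℝ) =
      X b * (X b * (X c * (X c * (X d * X d)))) := by ring
    rw [e]
    simp only [Derivation.leibniz, dv_X, smul_eq_mul, map_mul, map_ofNat]
    ring
  have h3 : X a * dv K a (X b ^ 2 * X c ^ 2 * X d ^ 2) =
      C (2 * K a b) * (X a * (X b * (X c * (X c * (X d * X d))))) +
      C (2 * K a c) * (X a * (X b * (X b * (X c * (X d * X d))))) +
      C (2 * K a d) * (X a * (X b * (X b * (X c * (X c * X d))))) := by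
    rw [h2]; ring
  rw [h0, h1 _ 0, h3, map_add, map_add, hE.C_mul, hE.C_mul, hE.C_mul, wick6 hE, wick6 hE,
    wick6 hE, wick222 hE hK]
  ring

end wick

end Pool.Agent.Q188.T8
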